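import Mathlib
import Pool.Agent.Helper79.CF.Near

set_option autoImplicit false

/-!
# Hardy–Littlewood asymptotics for tuples with computable multipliers close to `1`
-/

namespace Pool.Agent.Results.MP_092512_nt.ComputableMultipliers

open Filter Topology MeasureTheory
open Pool.Agent.Helper79.CF (count ComputableReal)

theorem result :
    -- quadruples of all shapes, in particular of the shapes `(0, 2, 6, 8)` and `(0, 4, 6, 10)`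
    (∀ ε : ℝ, 0 < ε → ∃ α β γ : ℝ,
      ((1 < α ∧ α < 1 + ε ∧ ComputableReal α ∧ Irrational α) ∧
        (1 < β ∧ β < 1 + ε ∧ ComputableReal β ∧ Irrational β) ∧
        (1 < γ ∧ γ < 1 + ε ∧ ComputableReal γ ∧ Irrational γ)) ∧
      ∀ a b c : ℤ,
        {p : ℕ | p.Prime ∧ (⌊α * ((p : ℝ) + a)⌋₊).Prime ∧ (⌊β * ((p : ℝ) + b)⌋₊).Prime ∧
          (⌊γ * ((p : ℝ) + c)⌋₊).Prime}.Infinite ∧
        Tendsto (fun N : ℕ => (Real.log N) ^ 4 / N * count {p | p.Prime ∧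
          (⌊α * ((p : ℝ) + a)⌋₊).Prime ∧ (⌊β * ((p : ℝ) + b)⌋₊).Prime ∧
          (⌊γ * ((p : ℝ) + c)⌋₊).Prime} N) atTop (𝓝 1)) ∧
    -- tuples of any length and any shape
    (∀ (r : ℕ) (ε : ℝ), 0 < ε → ∃ α : Fin r → ℝ,
      (∀ i, 1 < α i ∧ α i < 1 + ε ∧ ComputableReal (α i) ∧ Irrational (α i)) ∧
      ∀ h : Fin r → ℤ, {p : ℕ | p.Prime ∧ ∀ i, (⌊α i * ((p : ℝ) + h i)⌋₊).Prime}.Infinite ∧
        Tendsto (fun N : ℕ => count {p | p.Prime ∧ ∀ i, (⌊α i * ((p : ℝ) + h i)⌋₊).Prime} N *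
          (Real.log N) ^ (r + 1) / N) atTop (𝓝 1)) := by
  refine ⟨fun ε hε => ?_, Pool.Agent.Helper79.CF.near_tuples⟩
  obtain ⟨α, h1, h2⟩ := Pool.Agent.Helper79.CF.near_tuples 3 ε hε
  refine ⟨α 0, α 1, α 2, ⟨h1 0, h1 1, h1 2⟩, fun a b c => ?_⟩
  have h3 := h2 ![a, b, c]
  have e : {p : ℕ | p.Prime ∧ ∀ i : Fin 3, (⌊α i * ((p : ℝ) + (![a, b, c] i : ℤ))⌋₊).Prime} =
      {p : ℕ | p.Prime ∧ (⌊α 0 * ((p : ℝ) + a)⌋₊).Prime ∧ (⌊α 1 * ((p : ℝ) + b)⌋₊).Prime ∧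
          (⌊α 2 * ((p : ℝ) + c)⌋₊).Prime} := by
    ext p
    simp only [Set.mem_ofPred_eq, Fin.forall_fin_succ, Fin.forall_fin_zero]
    simp
  rw [e] at h3
  refine ⟨h3.1, h3.2.congr fun N => ?_⟩
  ring

end Pool.Agent.Results.MP_092512_nt.ComputableMultipliers
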